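import Pool.Agent.H175R2.Width

/-!
# Odd induced subgraphs of cographs (MP_007251_co)

For `n ≥ 2` the minimum of `mos G` over all cographs `G` on `n` vertices without isolated vertices
is `2 * ⌈n / 6⌉`.

Lower bound: a cograph on at least two vertices is a disjoint union or a join of two smaller
cographs. For a join of parts of odd orders `a` and `b`, Gallai's partitions of the two parts in an
odd and an even part give two odd induced subgraphs which partition the vertices.
Upper bound: induced subgraphs of disjoint copies of `K_{2,2,2}`.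
-/

set_option autoImplicit false

open Finset Classical

namespace Pool.Agent.Results.MP_007251_co.ExactMinimum

/-- A cograph is a graph without induced path on four vertices. -/
def IsCograph {V : Type} (G : SimpleGraph V) : Prop := IsEmpty (SimpleGraph.pathGraph 4 ↪g G)

/-- No vertex is isolated. -/
def NoIsolated {V : Type} (G : SimpleGraph V) : Prop := ∀ v, ∃ w, G.Adj v w

/-- `X` induces an odd subgraph: every vertex of `X` has an odd number of neighbours in `X`. -/
def OddInduced {V : Type} (G : SimpleGraph V) (X : Finset V) : Prop :=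
  ∀ v ∈ X, Odd (X.filter (fun w => G.Adj v w)).card

/-- `mos G` is the largest number of vertices of an odd induced subgraph. -/
noncomputable def mos {V : Type} [Fintype V] (G : SimpleGraph V) : ℕ :=
  ((Finset.univ : Finset (Finset V)).filter (fun X => OddInduced G X)).sup Finset.card

/-! ### Gallai's theorem -/

section
variable {V : Type}

/-- the diagonal of a symmetric matrix over `ZMod 2` lies in its column space -/
lemma diag_mem (n : ℕ) : ∀ (D : Finset V), D.card = n → ∀ M : V → V → ZMod 2,
    (∀ v w, M v w = M w v) → ∃ x : V → ZMod 2, ∀ v ∈ D, ∑ w ∈ D, M v w * x w = M v v := by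
  induction n with
  | zero =>
    intro D hD M _
    rw [card_eq_zero] at hD
    subst hD
    exact ⟨fun _ => 0, by simp⟩
  | succ n ih =>
    intro D hD M hM
    by_cases hz : ∀ u ∈ D, M u u = 0
    · exact ⟨fun _ => 0, fun v hv => by simp [hz v hv]⟩
    · push Not at hz
      obtain ⟨u, hu, hu0⟩ := hz
      have hu1 : M u u = 1 := by
        have : ∀ a : ZMod 2, a ≠ 0 → a = 1 := by decide
        exact this _ hu0
      obtain ⟨x', hx'⟩ := ih (D.erase u) (by rw [card_erase_of_mem hu, hD]; rfl)
        (fun v w => M v w + M v u * M u w) (fun v w => by rw [hM v w, hM v u, hM u w]; ring)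
      have h2 : ∀ a : ZMod 2, a + a = 0 := by decide
      have h3 : ∀ a : ZMod 2, a * a = a := by decide
      set c : ZMod 2 := 1 + ∑ w ∈ D.erase u, M u w * x' w with hc
      refine ⟨fun w => if w = u then c else x' w, fun v hv => ?_⟩
      have hsplit : ∀ v, ∑ w ∈ D, M v w * (if w = u then c else x' w) =
          M v u * c + ∑ w ∈ D.erase u, M v w * x' w := by
        intro v
        rw [← Finset.add_sum_erase D _ hu]
        congr 1
        · simp
        · refine sum_congr rfl (fun w hw => ?_)
          rw [if_neg (ne_of_mem_erase hw)]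
      rw [hsplit v]
      by_cases hvu : v = u
      · subst hvu
        rw [hu1, hc]
        have := h2 (∑ w ∈ D.erase v, M v w * x' w)
        linear_combination this
      · have h4 := hx' v (mem_erase.2 ⟨hvu, hv⟩)
        have h5 : ∑ w ∈ D.erase u, (M v w + M v u * M u w) * x' w =
            ∑ w ∈ D.erase u, M v w * x' w + M v u * ∑ w ∈ D.erase u, M u w * x' w := by
          rw [mul_sum, ← sum_add_distrib]
          exact sum_congr rfl (fun w _ => by ring)
        rw [h5, hM u v, h3] at h4
        rw [hc]
        have h6 := h2 (M v u)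
        linear_combination h4 + h6

/-- the number of neighbours in `X`, modulo two -/
lemma card_filter_cast (G : SimpleGraph V) (X : Finset V) (v : V) :
    (((X.filter (fun w => G.Adj v w)).card : ℕ) : ZMod 2) =
      ∑ w ∈ X, if G.Adj v w then (1 : ZMod 2) else 0 := by
  rw [card_filter]; push_cast; rfl

/-- handshake lemma: a set all of whose inner degrees are odd has even order -/
lemma even_of_odd (G : SimpleGraph V) (X : Finset V) (h : OddInduced G X) : Even X.card := by
  have hh : ∀ X : Finset V, ∑ v ∈ X, ∑ w ∈ X, (if G.Adj v w then (1 : ZMod 2) else 0) = 0 := by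
    intro X
    induction X using Finset.induction_on with
    | empty => simp
    | insert a s ha ih =>
      rw [sum_insert ha, sum_insert ha]
      have h1 : ∑ x ∈ s, ∑ w ∈ insert a s, (if G.Adj x w then (1 : ZMod 2) else 0) =
          ∑ x ∈ s, (if G.Adj x a then (1 : ZMod 2) else 0) +
            ∑ x ∈ s, ∑ w ∈ s, (if G.Adj x w then (1 : ZMod 2) else 0) := by
        rw [← sum_add_distrib]
        exact sum_congr rfl (fun x _ => by rw [sum_insert ha])
      rw [h1, ih]
      have h2 : ∑ x ∈ s, (if G.Adj x a then (1 : ZMod 2) else 0) =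
          ∑ x ∈ s, (if G.Adj a x then (1 : ZMod 2) else 0) :=
        sum_congr rfl (fun x _ => by simp only [G.adj_comm])
      rw [h2, if_neg (G.loopless.irrefl a)]
      have h3 : ∀ a : ZMod 2, a + a = 0 := by decide
      rw [zero_add, add_zero]
      exact h3 _
  have h1 := hh X
  have h2 : ∑ v ∈ X, ∑ w ∈ X, (if G.Adj v w then (1 : ZMod 2) else 0) = ∑ v ∈ X, 1 := by
    refine sum_congr rfl (fun v hv => ?_)
    rw [← card_filter_cast]
    exact (ZMod.natCast_eq_one_iff_odd).2 (h v hv)
  rw [h2, sum_const, nsmul_eq_mul, mul_one] at h1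
  exact (ZMod.natCast_eq_zero_iff_even).1 h1

/-- **Gallai**: every finite set of vertices is a disjoint union of a set inducing an odd subgraph
and of a set inducing an even subgraph. -/
lemma gallai (G : SimpleGraph V) (D : Finset V) : ∃ O E : Finset V, Disjoint O E ∧ O ∪ E = D ∧
    OddInduced G O ∧ ∀ v ∈ E, Even (E.filter (fun w => G.Adj v w)).card := by
  set N : V → V → ZMod 2 := fun v w => if G.Adj v w then 1 else 0 with hN
  set d : V → ZMod 2 := fun v => ∑ w ∈ D, N v w with hd
  have hNs : ∀ v w, N v w = N w v := fun v w => by simp only [hN, G.adj_comm]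
  have hN0 : ∀ v, N v v = 0 := fun v => by simp [hN]
  obtain ⟨x, hx⟩ := diag_mem D.card D rfl (fun v w => N v w + if v = w then d v + 1 else 0)
    (fun v w => by
      by_cases h : v = w
      · subst h; rfl
      · rw [if_neg h, if_neg (Ne.symm h), hNs])
  have hx2 : ∀ v ∈ D, ∑ w ∈ D, N v w * x w + (d v + 1) * x v = d v + 1 := by
    intro v hv
    have h1 := hx v hv
    simp only [hN0, if_true, zero_add, add_mul, sum_add_distrib] at h1
    have h2 : ∑ w ∈ D, (if v = w then d v + 1 else 0) * x w = (d v + 1) * x v := by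
      rw [sum_eq_single v (fun w _ hw => by rw [if_neg (Ne.symm hw), zero_mul])
        (fun h => absurd hv h)]
      simp
    rw [h2] at h1
    exact h1
  have h01 : ∀ a : ZMod 2, a = 0 ∨ a = 1 := by decide
  refine ⟨D.filter (fun v => x v = 0), D.filter (fun v => x v = 1), ?_, ?_, ?_, ?_⟩
  · rw [disjoint_left]
    intro v h1 h2
    rw [mem_filter] at h1 h2
    exact absurd (h1.2.symm.trans h2.2) (by decide)
  · ext v
    simp only [mem_union, mem_filter]
    constructor
    · rintro (h | h) <;> exact h.1
    · intro hv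
      rcases h01 (x v) with h | h
      · exact Or.inl ⟨hv, h⟩
      · exact Or.inr ⟨hv, h⟩
  · intro v hv
    rw [mem_filter] at hv
    rw [← ZMod.natCast_eq_one_iff_odd, card_filter_cast]
    have h1 := hx2 v hv.1
    rw [hv.2, mul_zero, add_zero] at h1
    have h2 : ∑ w ∈ D.filter (fun v => x v = 0), N v w + ∑ w ∈ D, N v w * x w = d v := by
      rw [sum_filter, ← sum_add_distrib]
      refine sum_congr rfl (fun w _ => ?_)
      rcases h01 (x w) with h | h
      · rw [if_pos h, h]; ring
      · rw [if_neg (by rw [h]; decide), h]; ring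
    have h3 : ∑ w ∈ D.filter (fun v => x v = 0), (if G.Adj v w then (1 : ZMod 2) else 0) =
      ∑ w ∈ D.filter (fun v => x v = 0), N v w := rfl
    rw [h3]
    rw [h1] at h2
    have h4 : ∀ a : ZMod 2, a + a = 0 := by decide
    have h5 := h4 (∑ w ∈ D.filter (fun v => x v = 0), N v w)
    have h6 := h4 (1 : ZMod 2)
    linear_combination (-1 : ZMod 2) * h2 + h5
  · intro v hv
    rw [mem_filter] at hv
    rw [← ZMod.natCast_eq_zero_iff_even, card_filter_cast]
    have h1 := hx2 v hv.1
    rw [hv.2, mul_one] at h1
    have h2 : ∑ w ∈ D.filter (fun v => x v = 1), N v w = ∑ w ∈ D, N v w * x w := by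
      rw [sum_filter]
      refine sum_congr rfl (fun w _ => ?_)
      rcases h01 (x w) with h | h
      · rw [if_neg (by rw [h]; decide), h]; ring
      · rw [if_pos h, h]; ring
    have h3 : ∑ w ∈ D.filter (fun v => x v = 1), (if G.Adj v w then (1 : ZMod 2) else 0) =
      ∑ w ∈ D.filter (fun v => x v = 1), N v w := rfl
    rw [h3, h2]
    linear_combination h1

/-! ### joins -/

/-- the degrees in a join -/
lemma filter_join (G : SimpleGraph V) {A B X Y : Finset V} (hd : Disjoint A B)
    (hj : ∀ a ∈ A, ∀ b ∈ B, G.Adj a b) (hX : X ⊆ A) (hY : Y ⊆ B) (v : V) (hv : v ∈ X) :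
    ((X ∪ Y).filter (fun w => G.Adj v w)).card =
      (X.filter (fun w => G.Adj v w)).card + Y.card := by
  rw [filter_union, card_union_of_disjoint (disjoint_filter_filter (hd.mono hX hY))]
  congr 1
  rw [filter_true_of_mem (fun w hw => hj v (hX hv) w (hY hw))]

lemma join_odd (G : SimpleGraph V) {A B X Y : Finset V} (hd : Disjoint A B)
    (hj : ∀ a ∈ A, ∀ b ∈ B, G.Adj a b) (hX : X ⊆ A) (hY : Y ⊆ B)
    (h1 : ∀ v ∈ X, Odd ((X.filter (fun w => G.Adj v w)).card + Y.card))
    (h2 : ∀ v ∈ Y, Odd ((Y.filter (fun w => G.Adj v w)).card + X.card)) :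
    OddInduced G (X ∪ Y) := by
  intro v hv
  rcases mem_union.1 hv with h | h
  · rw [filter_join G hd hj hX hY v h]; exact h1 v h
  · rw [union_comm, filter_join G hd.symm (fun a ha b hb => (hj b hb a ha).symm) hY hX v h]
    exact h2 v h

/-- a join of two parts of odd order has an odd induced subgraph of at least half its order -/
lemma join_half (G : SimpleGraph V) {A B : Finset V} (hd : Disjoint A B)
    (hj : ∀ a ∈ A, ∀ b ∈ B, G.Adj a b) (hA : Odd A.card) (hB : Odd B.card) :
    ∃ X ⊆ A ∪ B, OddInduced G X ∧ A.card + B.card ≤ 2 * X.card := by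
  obtain ⟨O1, E1, hd1, hu1, ho1, he1⟩ := gallai G A
  obtain ⟨O2, E2, hd2, hu2, ho2, he2⟩ := gallai G B
  have c1 : O1.card + E1.card = A.card := by rw [← hu1, card_union_of_disjoint hd1]
  have c2 : O2.card + E2.card = B.card := by rw [← hu2, card_union_of_disjoint hd2]
  have e1 := even_of_odd G O1 ho1
  have e2 := even_of_odd G O2 ho2
  have o1 : Odd E1.card := by
    rw [← c1] at hA; exact (Nat.odd_add'.1 hA).2 e1
  have o2 : Odd E2.card := by
    rw [← c2] at hB; exact (Nat.odd_add'.1 hB).2 e2
  have sO1 : O1 ⊆ A := by rw [← hu1]; exact subset_union_left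
  have sE1 : E1 ⊆ A := by rw [← hu1]; exact subset_union_right
  have sO2 : O2 ⊆ B := by rw [← hu2]; exact subset_union_left
  have sE2 : E2 ⊆ B := by rw [← hu2]; exact subset_union_right
  have hOO : OddInduced G (O1 ∪ O2) := join_odd G hd hj sO1 sO2
    (fun v hv => (ho1 v hv).add_even e2) (fun v hv => (ho2 v hv).add_even e1)
  have hEE : OddInduced G (E1 ∪ E2) := join_odd G hd hj sE1 sE2
    (fun v hv => (he1 v hv).add_odd o2) (fun v hv => (he2 v hv).add_odd o1)
  have cO : (O1 ∪ O2).card = O1.card + O2.card := card_union_of_disjoint (hd.mono sO1 sO2)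
  have cE : (E1 ∪ E2).card = E1.card + E2.card := card_union_of_disjoint (hd.mono sE1 sE2)
  rcases le_total (A.card + B.card) (2 * (O1 ∪ O2).card) with h | h
  · exact ⟨_, union_subset_union sO1 sO2, hOO, h⟩
  · exact ⟨_, union_subset_union sE1 sE2, hEE, by omega⟩

/-- a nonempty set contains a subset of odd order missing at most one element -/
lemma exists_odd_subset {A : Finset V} (hA : A.Nonempty) :
    ∃ A' ⊆ A, Odd A'.card ∧ A.card ≤ A'.card + 1 := by
  rcases Nat.even_or_odd A.card with h | h
  · obtain ⟨a, ha⟩ := hA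
    refine ⟨A.erase a, erase_subset _ _, ?_, ?_⟩
    · rw [card_erase_of_mem ha]
      have : 0 < A.card := card_pos.2 ⟨a, ha⟩
      exact Nat.Even.sub_odd this h odd_one
    · rw [card_erase_of_mem ha]; omega
  · exact ⟨A, Subset.refl _, h, by omega⟩

/-- the bound for joins -/
lemma join_bound (G : SimpleGraph V) {A B : Finset V} (hd : Disjoint A B) (hA : A.Nonempty)
    (hB : B.Nonempty) (hj : ∀ a ∈ A, ∀ b ∈ B, G.Adj a b) :
    ∃ X ⊆ A ∪ B, OddInduced G X ∧ 2 * (((A ∪ B).card + 5) / 6) ≤ X.card := by
  obtain ⟨A', sA, oA, cA⟩ := exists_odd_subset hA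
  obtain ⟨B', sB, oB, cB⟩ := exists_odd_subset hB
  obtain ⟨X, sX, hX, cX⟩ := join_half G (hd.mono sA sB)
    (fun a ha b hb => hj a (sA ha) b (sB hb)) oA oB
  have hcard : (A ∪ B).card = A.card + B.card := card_union_of_disjoint hd
  obtain ⟨m, hm⟩ := even_of_odd G X hX
  by_cases hbig : 7 ≤ (A ∪ B).card
  · exact ⟨X, sX.trans (union_subset_union sA sB), hX, by omega⟩
  · obtain ⟨a, ha⟩ := hA
    obtain ⟨b, hb⟩ := hB
    refine ⟨{a} ∪ {b}, union_subset_union (by simpa using ha) (by simpa using hb), ?_, ?_⟩
    · refine join_odd G hd hj (by simpa using ha) (by simpa using hb) ?_ ?_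
      · intro v hv
        rw [mem_singleton] at hv; subst hv
        rw [filter_singleton, if_neg (G.loopless.irrefl v)]
        simp
      · intro v hv
        rw [mem_singleton] at hv; subst hv
        rw [filter_singleton, if_neg (G.loopless.irrefl v)]
        simp
    · have hab : Disjoint ({a} : Finset V) {b} := hd.mono (by simpa using ha) (by simpa using hb)
      rw [card_union_of_disjoint hab]
      simp only [card_singleton]
      omega

/-! ### the lower bound -/

lemma lower_aux (n : ℕ) : ∀ (G : SimpleGraph V) (D : Finset V), D.card ≤ n →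
    Pool.Agent.H175R2.P4Free G D → (∀ v ∈ D, ∃ w ∈ D, G.Adj v w) →
    ∃ X ⊆ D, OddInduced G X ∧ 2 * ((D.card + 5) / 6) ≤ X.card := by
  induction n with
  | zero =>
    intro G D hD _ _
    have : D.card = 0 := by omega
    exact ⟨∅, empty_subset _, fun v hv => by simp at hv, by rw [this]; simp⟩
  | succ n ih =>
    intro G D hD hP hiso
    rcases D.eq_empty_or_nonempty with rfl | hne
    · exact ⟨∅, empty_subset _, fun v hv => by simp at hv, by simp⟩
    have h2 : 2 ≤ D.card := by
      obtain ⟨v, hv⟩ := hne
      obtain ⟨w, hw, hvw⟩ := hiso v hv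
      have : ({v, w} : Finset V) ⊆ D := by
        intro z hz; simp only [mem_insert, mem_singleton] at hz; rcases hz with rfl | rfl <;> assumption
      have h3 := card_le_card this
      rwa [card_pair hvw.ne] at h3
    obtain ⟨A, B, hA, hB, hd, hu, h⟩ :=
      Pool.Agent.H175R2.spl_of_p4free D.card G D le_rfl h2 hP
    have hcard : D.card = A.card + B.card := by rw [← hu, card_union_of_disjoint hd]
    have pA := card_pos.2 hA
    have pB := card_pos.2 hB
    have sA : A ⊆ D := by rw [← hu]; exact subset_union_left
    have sB : B ⊆ D := by rw [← hu]; exact subset_union_right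
    rcases h with h | h
    · have iA : ∀ v ∈ A, ∃ w ∈ A, G.Adj v w := by
        intro v hv
        obtain ⟨w, hw, hvw⟩ := hiso v (sA hv)
        rw [← hu, mem_union] at hw
        rcases hw with hw | hw
        · exact ⟨w, hw, hvw⟩
        · exact absurd hvw (h v hv w hw)
      have iB : ∀ v ∈ B, ∃ w ∈ B, G.Adj v w := by
        intro v hv
        obtain ⟨w, hw, hvw⟩ := hiso v (sB hv)
        rw [← hu, mem_union] at hw
        rcases hw with hw | hw
        · exact absurd hvw.symm (h w hw v hv)
        · exact ⟨w, hw, hvw⟩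
      obtain ⟨X, sX, oX, cX⟩ := ih G A (by omega) (hP.mono sA) iA
      obtain ⟨Y, sY, oY, cY⟩ := ih G B (by omega) (hP.mono sB) iB
      have hXY : Disjoint X Y := hd.mono sX sY
      refine ⟨X ∪ Y, union_subset (sX.trans sA) (sY.trans sB), ?_, ?_⟩
      · intro v hv
        rcases mem_union.1 hv with hv | hv
        · have : (X ∪ Y).filter (fun w => G.Adj v w) = X.filter (fun w => G.Adj v w) := by
            rw [filter_union]
            rw [filter_false_of_mem (s := Y) (fun w hw => h v (sX hv) w (sY hw)), union_empty]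
          rw [this]; exact oX v hv
        · have : (X ∪ Y).filter (fun w => G.Adj v w) = Y.filter (fun w => G.Adj v w) := by
            rw [filter_union]
            rw [filter_false_of_mem (s := X) (fun w hw hc => h w (sX hw) v (sY hv) hc.symm),
              empty_union]
          rw [this]; exact oY v hv
      · rw [card_union_of_disjoint hXY]; omega
    · have := join_bound G hd hA hB h
      rwa [hu] at this

lemma le_mos [Fintype V] (G : SimpleGraph V) {X : Finset V} (h : OddInduced G X) :
    X.card ≤ mos G :=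
  le_sup (f := Finset.card) (mem_filter.2 ⟨mem_univ _, h⟩)

lemma p4free_of_cograph [Fintype V] (G : SimpleGraph V) (h : IsCograph G) :
    Pool.Agent.H175R2.P4Free G univ := by
  intro a _ b _ c _ d _ hac had hbd hab hbc hcd
  by_contra hcon
  push Not at hcon
  obtain ⟨nac, nad, nbd⟩ := hcon
  refine h.false ⟨⟨![a, b, c, d], ?_⟩, ?_⟩
  · intro i j hij
    fin_cases i <;> fin_cases j <;> simp_all [hab.ne, hbc.ne, hcd.ne, hab.ne', hbc.ne', hcd.ne']
  · intro i j
    fin_cases i <;> fin_cases j <;>
      simp_all [SimpleGraph.pathGraph_adj, G.adj_comm]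

theorem lower {n : ℕ} (G : SimpleGraph (Fin n)) (hc : IsCograph G) (hi : NoIsolated G) :
    2 * ((n + 5) / 6) ≤ mos G := by
  obtain ⟨X, -, oX, cX⟩ := lower_aux n G univ (by simp) (p4free_of_cograph G hc)
    (fun v _ => by obtain ⟨w, hw⟩ := hi v; exact ⟨w, mem_univ _, hw⟩)
  rw [card_univ, Fintype.card_fin] at cX
  exact cX.trans (le_mos G oX)

end

/-! ### the upper bound -/

/-- vertices in the classes modulo `q` form complete multipartite graphs with at most three parts -/
def octa (n q : ℕ) : SimpleGraph (Fin n) where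
  Adj i j := i.val % q = j.val % q ∧ (i.val / q) % 3 ≠ (j.val / q) % 3
  symm := ⟨fun _ _ h => ⟨h.1.symm, h.2.symm⟩⟩
  loopless := ⟨fun _ h => h.2 rfl⟩

lemma octa_cograph (n q : ℕ) : IsCograph (octa n q) := by
  refine ⟨fun f => ?_⟩
  have h01 : (octa n q).Adj (f 0) (f 1) := f.map_rel_iff.2 (by rw [SimpleGraph.pathGraph_adj]; simp)
  have h12 : (octa n q).Adj (f 1) (f 2) := f.map_rel_iff.2 (by rw [SimpleGraph.pathGraph_adj]; simp)
  have h23 : (octa n q).Adj (f 2) (f 3) := f.map_rel_iff.2 (by rw [SimpleGraph.pathGraph_adj]; simp)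
  have h02 : ¬ (octa n q).Adj (f 0) (f 2) := fun h => by
    have := f.map_rel_iff.1 h
    rw [SimpleGraph.pathGraph_adj] at this; simp at this
  have h03 : ¬ (octa n q).Adj (f 0) (f 3) := fun h => by
    have := f.map_rel_iff.1 h
    rw [SimpleGraph.pathGraph_adj] at this; simp at this
  simp only [octa, not_and, not_not] at h01 h12 h23 h02 h03
  have e1 := h02 (h01.1.trans h12.1)
  have e2 := h03 (h01.1.trans (h12.1.trans h23.1))
  exact h23.2 (e1.symm.trans e2)

lemma octa_noIsolated (n : ℕ) (hn : 2 ≤ n) : NoIsolated (octa n ((n + 5) / 6)) := by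
  set q := (n + 5) / 6 with hq
  have hq0 : 0 < q := by omega
  have h2q : 2 * q ≤ n := by omega
  intro v
  have hv := v.isLt
  have hmod : v.val % q < q := Nat.mod_lt _ hq0
  by_cases h : (v.val / q) % 3 = 0
  · refine ⟨⟨v.val % q + q, by omega⟩, ?_, ?_⟩
    · show v.val % q = (v.val % q + q) % q
      rw [Nat.add_mod_right, Nat.mod_mod]
    · show (v.val / q) % 3 ≠ ((v.val % q + q) / q) % 3
      rw [Nat.add_div_right _ hq0, Nat.div_eq_of_lt hmod, h]
      decide
  · refine ⟨⟨v.val % q, by omega⟩, ?_, ?_⟩
    · show v.val % q = (v.val % q) % q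
      rw [Nat.mod_mod]
    · show (v.val / q) % 3 ≠ ((v.val % q) / q) % 3
      rw [Nat.div_eq_of_lt hmod]
      simpa using h

lemma octa_mos (n q : ℕ) (hq : 0 < q) (hn : n ≤ 6 * q) : mos (octa n q) ≤ 2 * q := by
  refine Finset.sup_le (fun X hX => ?_)
  rw [mem_filter] at hX
  have hX := hX.2
  have key : ∀ r ∈ range q, (X.filter (fun i => i.val % q = r)).card ≤ 2 := by
    intro r _
    set F := X.filter (fun i => i.val % q = r) with hF
    set C : ℕ → Finset (Fin n) := fun j => F.filter (fun i => (i.val / q) % 3 = j) with hC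
    have hC2 : ∀ j, (C j).card ≤ 2 := by
      intro j
      have : (C j).card ≤ ({j, j + 3} : Finset ℕ).card := by
        refine card_le_card_of_injOn (fun i => i.val / q) ?_ ?_
        · intro i hi
          simp only [hC, hF, coe_filter, mem_filter, Set.mem_ofPred_eq] at hi
          have h1 : i.val / q < 6 := by
            rw [Nat.div_lt_iff_lt_mul hq]; have := i.isLt; omega
          simp only [coe_insert, coe_singleton, Set.mem_insert_iff, Set.mem_singleton_iff]
          have h2 := hi.2
          generalize i.val / q = k at h1 h2 ⊢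
          omega
        · intro i hi i' hi' h
          simp only [hC, hF, coe_filter, mem_filter, Set.mem_ofPred_eq] at hi hi'
          simp only at h
          apply Fin.ext
          rw [← Nat.div_add_mod i.val q, ← Nat.div_add_mod i'.val q, h, hi.1.2, hi'.1.2]
      refine this.trans (card_le_two)
    have hsum : F.card = (C 0).card + (C 1).card + (C 2).card := by
      have := card_eq_sum_card_fiberwise (s := F) (t := range 3) (f := fun i => (i.val / q) % 3)
        (fun i _ => by
          simp only [coe_range, Set.mem_Iio]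
          exact Nat.mod_lt _ (by norm_num))
      rw [this, sum_range_succ, sum_range_succ, sum_range_succ, sum_range_zero, zero_add]
    have hodd : ∀ j < 3, (C j).card = 0 ∨ ((C 0).card + (C 1).card + (C 2).card - (C j).card) % 2 = 1
        := by
      intro j _
      rcases (C j).eq_empty_or_nonempty with h | ⟨v, hv⟩
      · left; rw [h]; rfl
      · right
        simp only [hC, hF, mem_filter] at hv
        have h1 := hX v hv.1.1
        have h2 : X.filter (fun w => (octa n q).Adj v w) =
            F.filter (fun i => ¬ (i.val / q) % 3 = j) := by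
          ext w
          simp only [hF, mem_filter, octa, hv.1.2, hv.2]
          constructor
          · rintro ⟨a, b, c⟩; exact ⟨⟨a, b.symm⟩, fun h => c h.symm⟩
          · rintro ⟨⟨a, b⟩, c⟩; exact ⟨a, b.symm, fun h => c h.symm⟩
        have h3 := card_filter_add_card_filter_not (s := F) (fun i => (i.val / q) % 3 = j)
        rw [h2] at h1
        have h4 : (C j).card + (F.filter (fun i => ¬ (i.val / q) % 3 = j)).card = F.card := h3
        rw [← hsum]
        obtain ⟨k, hk⟩ := h1
        omega
    have a0 := hodd 0 (by norm_num)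
    have a1 := hodd 1 (by norm_num)
    have a2 := hodd 2 (by norm_num)
    have b0 := hC2 0
    have b1 := hC2 1
    have b2 := hC2 2
    omega
  have h := card_le_mul_card_image_of_maps_to (s := X) (t := range q)
    (f := fun i : Fin n => i.val % q) (fun i _ => mem_range.2 (Nat.mod_lt _ hq)) 2 key
  rwa [card_range] at h

/-- **Theorem.** For every `n ≥ 2` the minimum of `mos G` over the cographs `G` on `n` vertices
without isolated vertices is `2 * ⌈n / 6⌉`. -/
theorem result : ∀ n : ℕ, 2 ≤ n →
    IsLeast {k : ℕ | ∃ G : SimpleGraph (Fin n), IsCograph G ∧ NoIsolated G ∧ mos G = k}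
      (2 * ⌈(n : ℚ) / 6⌉₊) := by
  intro n hn
  have hceil : ⌈(n : ℚ) / 6⌉₊ = (n + 5) / 6 := by
    have h1 : n ≤ 6 * ((n + 5) / 6) := by omega
    have h2 : 6 * ((n + 5) / 6) < n + 6 := by omega
    apply le_antisymm
    · apply Nat.ceil_le.2
      rw [div_le_iff₀ (by norm_num)]
      have : (n : ℚ) ≤ ((6 * ((n + 5) / 6) : ℕ) : ℚ) := by exact_mod_cast h1
      push_cast at this ⊢
      linarith
    · have h3 := Nat.le_ceil ((n : ℚ) / 6)
      rw [div_le_iff₀ (by norm_num)] at h3
      have h4 : n ≤ ⌈(n : ℚ) / 6⌉₊ * 6 := by exact_mod_cast h3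
      omega
  rw [hceil]
  refine ⟨⟨octa n ((n + 5) / 6), octa_cograph _ _, octa_noIsolated n hn, ?_⟩, ?_⟩
  · exact le_antisymm (octa_mos n _ (by omega) (by omega))
      (lower _ (octa_cograph _ _) (octa_noIsolated n hn))
  · rintro k ⟨G, hc, hi, rfl⟩
    exact lower G hc hi

end Pool.Agent.Results.MP_007251_co.ExactMinimum
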